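import Pool.Agent.TH687.DCS.Main

/-!
# Disjoint Connected Subgraphs in time `2^n poly(n)`

A deterministic word-RAM program solves every instance of Disjoint Connected Subgraphs (the number
`k` of terminal sets is part of the input) in time `O(2^n (n+1)^3)`. So Q2 has a positive answer,
with `ε = 1`.
-/

namespace Pool.Agent.Results.MP_14a7d6_lc.DisjointConnectedTwoPowN

open Pool.Agent.H588R2 Pool.Agent.TH687.HL Pool.Agent.TH687.DCS

/-- `Z 0, …, Z (k - 1)` is a yes-instance: there are pairwise vertex-disjoint connected subgraphs
`D 0, …, D (k - 1)` of `G` such that `D i` contains all vertices of `Z i`. -/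
def HasSolution {n k : ℕ} (G : SimpleGraph (Fin n)) (Z : Fin k → Finset (Fin n)) : Prop :=
  ∃ D : Fin k → G.Subgraph,
    (∀ i, (D i).Connected ∧ ∀ v ∈ Z i, v ∈ (D i).verts) ∧
    Pairwise fun i j => Disjoint (D i).verts (D j).verts

/-- The label of the vertex `v`: it is `i + 1` if `v` belongs to the terminal set `Z i`, and `0`
if `v` is not a terminal (the sets `Z i` are pairwise disjoint, so at most one summand is not
zero). -/
def label {n k : ℕ} (Z : Fin k → Finset (Fin n)) (v : Fin n) : ℕ :=
  ∑ i : Fin k, if v ∈ Z i then (i : ℕ) + 1 else 0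

open Classical in
/-- Initial configuration of the word RAM. Register `0` holds the number `n` of vertices, register
`1` holds the number `k` of terminal sets, the other registers are zero. The memory holds the
adjacency matrix of `G` row by row (cell `u * n + v` is `1` if `u` and `v` are adjacent, else `0`),
followed by the `n` labels of the vertices, followed by zeros. -/
noncomputable def inputConfig {n k : ℕ} (G : SimpleGraph (Fin n)) (Z : Fin k → Finset (Fin n)) :
    Config where
  pc := 0
  st :=
    { reg := fun i => if i = 0 then n else if i = 1 then k else 0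
      mem := fun x =>
        if h : x / n < n ∧ x % n < n then
          (if G.Adj ⟨x / n, h.1⟩ ⟨x % n, h.2⟩ then 1 else 0)
        else if h : x - n * n < n then label Z ⟨x - n * n, h⟩
        else 0 }

open Classical in
/-- There is an exact algorithm for Disjoint Connected Subgraphs with running time
`b^n * poly(n)`: there are one program `P` of a deterministic word RAM and constants `c`, `C`, `d`
such that on every graph with `n` vertices and every family of `k` pairwise disjoint nonempty
terminal sets (any `k`), the machine with words of `c * (n + 1)` bits halts after at most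
`C * b^n * (n+1)^d` steps, and its output is `1` if the instance has a solution and `0`
otherwise. -/
def HasExactAlgorithm (b : ℝ) : Prop :=
  ∃ (P : List Instr) (c d : ℕ) (C : ℝ), ∀ (n k : ℕ) (G : SimpleGraph (Fin n))
    (Z : Fin k → Finset (Fin n)), (∀ i, (Z i).Nonempty) →
    (Pairwise fun i j => Disjoint (Z i) (Z j)) →
    HaltsWithin (c * (n + 1)) P (inputConfig G Z) (C * b ^ n * ((n : ℝ) + 1) ^ d)
      (if HasSolution G Z then 1 else 0)

theorem label_eq {n k : ℕ} {Z : Fin k → Finset (Fin n)}
    (hd : Pairwise fun i j => Disjoint (Z i) (Z j)) (v : Fin n) (i : Fin k) :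
    label Z v = (i : ℕ) + 1 ↔ v ∈ Z i := by
  classical
  by_cases h : ∃ j, v ∈ Z j
  · obtain ⟨j, hj⟩ := h
    have h1 : label Z v = (j : ℕ) + 1 := by
      unfold label
      rw [Finset.sum_eq_single j]
      · rw [if_pos hj]
      · intro l _ hl
        rw [if_neg]
        intro hvl
        exact Finset.disjoint_left.1 (hd hl) hvl hj
      · intro h; exact absurd (Finset.mem_univ _) h
    rw [h1]
    constructor
    · intro h
      have : j = i := Fin.ext (by omega)
      rw [← this]; exact hj
    · intro h
      by_contra hne
      have hji : j ≠ i := by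
        rintro rfl; exact hne rfl
      exact Finset.disjoint_left.1 (hd hji) hj h
  · have h1 : label Z v = 0 := by
      unfold label
      apply Finset.sum_eq_zero
      intro l _
      rw [if_neg]
      exact fun hvl => h ⟨l, hvl⟩
    rw [h1]
    constructor
    · intro h; omega
    · intro hv; exact absurd ⟨i, hv⟩ h

theorem label_le {n k : ℕ} {Z : Fin k → Finset (Fin n)}
    (hd : Pairwise fun i j => Disjoint (Z i) (Z j)) (v : Fin n) : label Z v ≤ k := by
  classical
  by_cases h : ∃ j, v ∈ Z j
  · obtain ⟨j, hj⟩ := h
    rw [(label_eq hd v j).2 hj]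
    have := j.2
    omega
  · have h1 : label Z v = 0 := by
      unfold label
      apply Finset.sum_eq_zero
      intro l _
      rw [if_neg]
      exact fun hvl => h ⟨l, hvl⟩
    omega

theorem card_le {n k : ℕ} {Z : Fin k → Finset (Fin n)} (hne : ∀ i, (Z i).Nonempty)
    (hd : Pairwise fun i j => Disjoint (Z i) (Z j)) : k ≤ n := by
  classical
  choose f hf using hne
  have hinj : Function.Injective f := by
    intro i j hij
    by_contra h
    exact Finset.disjoint_left.1 (hd h) (hf i) (hij ▸ hf j)
  have := Fintype.card_le_of_injective f hinj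
  simpa using this

theorem inp_of {n k : ℕ} (G : SimpleGraph (Fin n)) (Z : Fin k → Finset (Fin n)) :
    Inp n (2 ^ n) (adjF G) (fun v => if h : v < n then label Z ⟨v, h⟩ else 0)
      (inputConfig G Z).st := by
  classical
  constructor
  · intro u hu v hv
    have h1 : (u * n + v) / n = u := by
      rw [Nat.mul_comm, Nat.mul_add_div (by omega), Nat.div_eq_of_lt hv, Nat.add_zero]
    have h2 : (u * n + v) % n = v := by
      rw [Nat.mul_comm, Nat.mul_add_mod, Nat.mod_eq_of_lt hv]
    simp only [inputConfig, adjF, h1, h2]
    rw [dif_pos ⟨hu, hv⟩, dif_pos ⟨hu, hv⟩]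
  · intro v hv
    have h1 : (n * n + v) / n = n := by
      rw [Nat.mul_add_div (by omega), Nat.div_eq_of_lt hv, Nat.add_zero]
    have h2 : n * n + v - n * n = v := by omega
    simp only [inputConfig, h1, h2]
    rw [dif_neg (by omega)]

theorem pack_iff {n k : ℕ} (G : SimpleGraph (Fin n)) (Z : Fin k → Finset (Fin n))
    (hd : Pairwise fun i j => Disjoint (Z i) (Z j)) :
    Pack G (zl n (fun v => if h : v < n then label Z ⟨v, h⟩ else 0)) k Finset.univ ↔
      HasSolution G Z := by
  classical
  have hz : ∀ i : Fin k, zl n (fun v => if h : v < n then label Z ⟨v, h⟩ else 0) i = Z i := by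
    intro i
    ext v
    simp only [zl, Finset.mem_filter, Finset.mem_univ, true_and, v.2, dif_pos, Fin.eta]
    exact label_eq hd v i
  constructor
  · rintro ⟨D, h1, h2⟩
    refine ⟨fun i => (⊤ : G.Subgraph).induce (D i : Set (Fin n)), ?_, ?_⟩
    · intro i
      obtain ⟨a, b, _⟩ := h1 i i.2
      rw [hz] at a
      refine ⟨SimpleGraph.connected_induce_iff.1 b, ?_⟩
      intro v hv
      exact a hv
    · intro i j hij
      have := h2 i i.2 j j.2 (fun h => hij (Fin.ext h))
      simpa using this
  · rintro ⟨D, h1, h2⟩
    refine ⟨fun i => if h : i < k then Set.toFinset (D ⟨i, h⟩).verts else ∅, ?_, ?_⟩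
    · intro i hi
      obtain ⟨a, b⟩ := h1 ⟨i, hi⟩
      have hzi := hz ⟨i, hi⟩
      simp only at hzi
      simp only [dif_pos hi]
      refine ⟨?_, ?_, Finset.subset_univ _⟩
      · rw [hzi]
        intro v hv
        rw [Set.mem_toFinset]; exact b v hv
      · unfold Conn
        rw [Set.coe_toFinset]
        exact a.induce_verts
    · intro i hi j hj hij
      simp only [dif_pos hi, dif_pos hj]
      rw [Set.disjoint_toFinset]
      exact h2 (fun h => hij (Fin.ext_iff.1 h))

/-- Disjoint Connected Subgraphs can be solved exactly in time `2^n * poly(n)`, hence in time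
`(3 - ε)^n * poly(n)` with `ε = 1`. -/
theorem result : HasExactAlgorithm (3 - 1) := by
  classical
  refine ⟨main.comp.compile 0, 8, 3, 3000, ?_⟩
  intro n k G Z hne hd
  have hk := card_le hne hd
  have hlab : ∀ v < n, (fun v => if h : v < n then label Z ⟨v, h⟩ else 0) v ≤ n := by
    intro v hv
    simp only [dif_pos hv]
    exact (label_le hd _).trans hk
  have ht := tr_main (k := k) (G := G) (s := (inputConfig G Z).st) (par_of n) rfl rfl hk
    (inp_of G Z) hlab
  refine Tr.halts (w := 8 * (n + 1)) (s := (inputConfig G Z).st) main_wf ht ?_ _ ?_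
  · intro s' hs'
    rw [hs']
    by_cases h : HasSolution G Z
    · rw [if_pos h, pk_true.2 ((pack_iff G Z hd).2 h)]; rfl
    · rw [if_neg h]
      have : pk G (fun v => if h : v < n then label Z ⟨v, h⟩ else 0) k Finset.univ = false := by
        rw [← Bool.not_eq_true, pk_true, pack_iff G Z hd]
        exact h
      rw [this]; rfl
  · push_cast
    apply le_of_eq
    ring_nf

end Pool.Agent.Results.MP_14a7d6_lc.DisjointConnectedTwoPowN
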